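import Mathlib

/-!
# An equistable graph that is not weakly CIS

Let `F` be the triangle-free graph with the eleven edges
`e0 = 47, e1 = 03, e2 = 23, e3 = 05, e4 = 27, e5 = 67, e6 = 34, e7 = 48, e8 = 69, e9 = 06, e10 = 12`
on the vertices `0, ..., 9`, and let `G` be the complement of the line graph of `F`. The maximal
stable sets of `G` are the stars of `0, 2, 3, 4, 6, 7` in `F`. The weights
`18, 16, 21, 33, 5, 27, 13, 19, 22, 1, 24`, divided by `50`, show that `G` is equistable. If `G`
were weakly CIS, the adjacent vertices `e7` and `e9` of `G` would lie in a matching of `F` which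
meets the stars of `2`, `3` and `7`, but `3` and `7` can then only be matched to `2`.
-/

set_option autoImplicit false

namespace Pool.Agent.Results.MP_59918e_co.Disproof

/-- `S` is a maximal stable set of `G`. -/
def IsMaxStable {V : Type} (G : SimpleGraph V) (S : Finset V) : Prop :=
  Maximal (fun S : Finset V => G.IsIndepSet (S : Set V)) S

/-- `C` is a maximal clique of `G`. -/
def IsMaxClique {V : Type} (G : SimpleGraph V) (C : Finset V) : Prop :=
  Maximal (fun C : Finset V => G.IsClique (C : Set V)) C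

/-- `G` is equistable: there is a nonnegative weight function on the vertices such that a set of
vertices is a maximal stable set if and only if its total weight is `1`. -/
def Equistable {V : Type} (G : SimpleGraph V) : Prop :=
  ∃ φ : V → ℝ, (∀ v, 0 ≤ φ v) ∧ ∀ S : Finset V, IsMaxStable G S ↔ ∑ v ∈ S, φ v = 1

/-- `G` is weakly CIS: there are a family `A` of maximal cliques such that every two adjacent
vertices lie together in a member of `A`, and a family `B` of maximal stable sets such that every
two distinct non-adjacent vertices lie together in a member of `B`, such that every member of `A`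
meets every member of `B`. -/
def WeaklyCIS {V : Type} (G : SimpleGraph V) : Prop :=
  ∃ A B : Set (Finset V),
    (∀ C ∈ A, IsMaxClique G C) ∧ (∀ S ∈ B, IsMaxStable G S) ∧
    (∀ u v, G.Adj u v → ∃ C ∈ A, u ∈ C ∧ v ∈ C) ∧
    (∀ u v, u ≠ v → ¬ G.Adj u v → ∃ S ∈ B, u ∈ S ∧ v ∈ S) ∧
    ∀ C ∈ A, ∀ S ∈ B, ∃ v, v ∈ C ∧ v ∈ S

/-- First ends of the edges of `F`. -/
def end1 : Fin 11 → ℕ := ![4, 0, 2, 0, 2, 6, 3, 4, 6, 0, 1]

/-- Second ends of the edges of `F`. -/
def end2 : Fin 11 → ℕ := ![7, 3, 3, 5, 7, 7, 4, 8, 9, 6, 2]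

/-- The two edges of `F` have no common end. -/
def dj (i j : Fin 11) : Bool :=
  end1 i != end1 j && end1 i != end2 j && end2 i != end1 j && end2 i != end2 j

/-- The graph: the complement of the line graph of `F`. -/
def G : SimpleGraph (Fin 11) where
  Adj i j := dj i j = true
  symm := ⟨by decide⟩
  loopless := ⟨by decide⟩

instance : DecidableRel G.Adj := fun i j => inferInstanceAs (Decidable (dj i j = true))

/-- The weights, multiplied by `50`. -/
def w : Fin 11 → ℕ := ![18, 16, 21, 33, 5, 27, 13, 19, 22, 1, 24]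

/-- neighbours, as lists -/
def nbr : Fin 11 → List (Fin 11) :=
  ![[1, 2, 3, 8, 9, 10], [0, 4, 5, 7, 8, 10], [0, 3, 5, 7, 8, 9], [0, 2, 4, 5, 6, 7, 8, 10],
    [1, 3, 6, 7, 8, 9], [1, 2, 3, 6, 7, 10], [3, 4, 5, 8, 9, 10], [1, 2, 3, 4, 5, 8, 9, 10],
    [0, 1, 2, 3, 4, 6, 7, 10], [0, 2, 4, 6, 7, 10], [0, 1, 3, 5, 6, 7, 8, 9]]

theorem mem_nbr : ∀ i j, j ∈ nbr i ↔ G.Adj i j := by
  decide

/-- check for one set -/
def chk (b : Fin 11 → Bool) : Bool :=
  ((List.finRange 11).all (fun i => b i == !((nbr i).any b))) ==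
    (((List.finRange 11).map (fun i => if b i then w i else 0)).sum == 50)

theorem chk_all : ∀ b0 b1 b2 b3 b4 b5 b6 b7 b8 b9 b10 : Bool,
    chk ![b0, b1, b2, b3, b4, b5, b6, b7, b8, b9, b10] = true := by
  decide +kernel

theorem chk_eq (b : Fin 11 → Bool) : chk b = true := by
  have h : b = ![b 0, b 1, b 2, b 3, b 4, b 5, b 6, b 7, b 8, b 9, b 10] := by
    funext i
    fin_cases i <;> rfl
  rw [h]
  exact chk_all _ _ _ _ _ _ _ _ _ _ _

theorem isMaxStable_iff {V : Type} [DecidableEq V] (H : SimpleGraph V) (S : Finset V) :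
    IsMaxStable H S ↔ ∀ x, (x ∈ S ↔ ∀ y ∈ S, ¬ H.Adj x y) := by
  constructor
  · rintro ⟨h1, h2⟩ x
    constructor
    · intro hx y hy hxy
      exact h1 hx hy hxy.ne hxy
    · intro hx
      have h3 : H.IsIndepSet ((insert x S : Finset V) : Set V) := by
        intro a ha b hb hab hadj
        rw [Finset.mem_coe, Finset.mem_insert] at ha hb
        rcases ha with rfl | ha
        · rcases hb with rfl | hb
          · exact hab rfl
          · exact hx b hb hadj
        · rcases hb with rfl | hb
          · exact hx a ha hadj.symm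
          · exact h1 ha hb hab hadj
      exact h2 h3 (Finset.subset_insert x S) (Finset.mem_insert_self x S)
  · intro h
    refine ⟨fun a ha b hb _ hadj => (h a).1 ha b hb hadj, fun T hT hST x hx => ?_⟩
    rw [h x]
    intro y hy hxy
    exact hT hx (hST hy) hxy.ne hxy

theorem G_stable_iff (S : Finset (Fin 11)) : IsMaxStable G S ↔ ∑ v ∈ S, w v = 50 := by
  have h := chk_eq (fun i => decide (i ∈ S))
  unfold chk at h
  rw [beq_iff_eq, Bool.eq_iff_iff] at h
  rw [isMaxStable_iff]
  have h1 : (∀ x, (x ∈ S ↔ ∀ y ∈ S, ¬ G.Adj x y)) ↔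
      ((List.finRange 11).all (fun i => decide (i ∈ S) ==
        !((nbr i).any (fun i => decide (i ∈ S))))) = true := by
    rw [List.all_eq_true]
    constructor
    · intro hx i _
      have := hx i
      rw [beq_iff_eq, Bool.eq_iff_iff]
      simp only [decide_eq_true_eq, Bool.not_eq_true', List.any_eq_false]
      rw [this]
      constructor
      · intro h3 y hy hyS
        exact h3 y hyS ((mem_nbr i y).1 hy)
      · intro h3 y hy hadj
        exact h3 y ((mem_nbr i y).2 hadj) hy
    · intro hx i
      have := hx i (List.mem_finRange i)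
      rw [beq_iff_eq, Bool.eq_iff_iff] at this
      simp only [decide_eq_true_eq, Bool.not_eq_true', List.any_eq_false] at this
      rw [this]
      constructor
      · intro h3 y hy hadj
        exact h3 y ((mem_nbr i y).2 hadj) hy
      · intro h3 y hy hyS
        exact h3 y hyS ((mem_nbr i y).1 hy)
  rw [h1, h, beq_iff_eq]
  have h2 : ((List.finRange 11).map (fun i => if decide (i ∈ S) = true then w i else 0)).sum =
      ∑ v ∈ S, w v := by
    rw [← List.ofFn_eq_map, List.sum_ofFn, ← Finset.sum_filter]
    congr 1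
    ext i
    simp
  rw [h2]

theorem equistable_G : Equistable G := by
  refine ⟨fun v => (w v : ℝ) / 50, fun v => by positivity, fun S => ?_⟩
  rw [G_stable_iff, ← Finset.sum_div, div_eq_one_iff_eq (by norm_num)]
  constructor
  · intro h
    exact_mod_cast h
  · intro h
    exact_mod_cast h

theorem not_weaklyCIS_G : ¬ WeaklyCIS G := by
  rintro ⟨A, B, hA, hB, hcA, hcB, hAB⟩
  obtain ⟨C, hCA, h7, h9⟩ := hcA 7 9 (by decide)
  have hC : ∀ i ∈ C, ∀ j ∈ C, i ≠ j → G.Adj i j := fun i hi j hj hij => (hA C hCA).1 hi hj hij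
  -- a maximal stable set containing two edges at a vertex of `F` is contained in its star
  have star : ∀ u v x : Fin 11, u ≠ v → ¬ G.Adj u v →
      (∀ z, z ≠ u → z ≠ v → ¬ G.Adj z u → ¬ G.Adj z v → z = x) →
      u ∈ C ∨ v ∈ C ∨ x ∈ C := by
    intro u v x huv hn hx
    obtain ⟨S, hS, hu, hv⟩ := hcB u v huv hn
    obtain ⟨z, hzC, hzS⟩ := hAB C hCA S hS
    by_cases h1 : z = u
    · exact Or.inl (h1 ▸ hzC)
    by_cases h2 : z = v
    · exact Or.inr (Or.inl (h2 ▸ hzC))
    have h3 : z = x := hx z h1 h2 (fun h => (hB S hS).1 hzS hu h1 h)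
      (fun h => (hB S hS).1 hzS hv h2 h)
    exact Or.inr (Or.inr (h3 ▸ hzC))
  have s2 := star 2 4 10 (by decide) (by decide) (by decide)
  have s3 := star 1 2 6 (by decide) (by decide) (by decide)
  have s7 := star 0 4 5 (by decide) (by decide) (by decide)
  have n1 : (1 : Fin 11) ∉ C := fun h => absurd (hC 1 h 9 h9 (by decide)) (by decide)
  have n6 : (6 : Fin 11) ∉ C := fun h => absurd (hC 6 h 7 h7 (by decide)) (by decide)
  have n0 : (0 : Fin 11) ∉ C := fun h => absurd (hC 0 h 7 h7 (by decide)) (by decide)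
  have n5 : (5 : Fin 11) ∉ C := fun h => absurd (hC 5 h 9 h9 (by decide)) (by decide)
  have m2 : (2 : Fin 11) ∈ C := by
    rcases s3 with h | h | h
    · exact absurd h n1
    · exact h
    · exact absurd h n6
  have m4 : (4 : Fin 11) ∈ C := by
    rcases s7 with h | h | h
    · exact absurd h n0
    · exact h
    · exact absurd h n5
  exact absurd (hC 2 m2 4 m4 (by decide)) (by decide)

/-- Not every equistable graph is weakly CIS: there is a graph with eleven vertices that is
equistable but not weakly CIS. -/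
theorem result : ∃ H : SimpleGraph (Fin 11), Equistable H ∧ ¬ WeaklyCIS H :=
  ⟨G, equistable_G, not_weaklyCIS_G⟩

end Pool.Agent.Results.MP_59918e_co.Disproof
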